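import Mathlib

set_option autoImplicit false

/-! A Hölder inequality for sums over grids of shifts, helper891. -/

namespace Pool.Agent.TH891.SP

open Finset

/-- Hölder's inequality for several functions, in a form without roots -/
lemma holder_pow {κ τ : Type*} (K : Finset κ) (T : Finset τ) (F : τ → κ → ℝ)
    (hF : ∀ t ∈ T, ∀ k ∈ K, 0 ≤ F t k) :
    (∑ k ∈ K, ∏ t ∈ T, F t k) ^ T.card ≤ ∏ t ∈ T, ∑ k ∈ K, F t k ^ T.card := by
  classical
  rcases T.eq_empty_or_nonempty with rfl | hne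
  · simp
  set m := T.card with hm
  have hm1 : 1 ≤ m := card_pos.2 hne
  have hm0 : (0:ℝ) < m := by exact_mod_cast hm1
  set S : τ → ℝ := fun t => ∑ k ∈ K, F t k ^ m with hS
  have hS0 : ∀ t ∈ T, 0 ≤ S t := fun t ht => sum_nonneg fun k hk => pow_nonneg (hF t ht k hk) _
  by_cases hz : ∃ t ∈ T, S t = 0
  · obtain ⟨t, ht, h0⟩ := hz
    have h1 : ∀ k ∈ K, F t k = 0 := by
      intro k hk
      have := (sum_eq_zero_iff_of_nonneg (fun k hk => pow_nonneg (hF t ht k hk) m)).1 h0 k hk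
      exact pow_eq_zero_iff (by omega) |>.1 this
    have h2 : ∑ k ∈ K, ∏ t ∈ T, F t k = 0 :=
      sum_eq_zero fun k hk => prod_eq_zero ht (h1 k hk)
    rw [h2, zero_pow (by omega)]
    exact prod_nonneg hS0
  · push Not at hz
    have hSp : ∀ t ∈ T, 0 < S t := fun t ht => lt_of_le_of_ne (hS0 t ht) (hz t ht).symm
    set r : τ → ℝ := fun t => S t ^ (1 / (m : ℝ)) with hr
    have hrp : ∀ t ∈ T, 0 < r t := fun t ht => Real.rpow_pos_of_pos (hSp t ht) _
    have hrm : ∀ t ∈ T, r t ^ m = S t := by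
      intro t ht
      rw [hr]
      beta_reduce
      rw [← Real.rpow_natCast, ← Real.rpow_mul (hSp t ht).le, one_div, inv_mul_cancel₀ hm0.ne', Real.rpow_one]
    have hR : 0 < ∏ t ∈ T, r t := prod_pos hrp
    have h1 : ∀ k ∈ K, ∏ t ∈ T, F t k ≤ (∏ t ∈ T, r t) * ∑ t ∈ T, (1 / (m:ℝ)) * (F t k ^ m / S t) := by
      intro k hk
      have h2 := Real.geom_mean_le_arith_mean_weighted T (fun _ => 1 / (m : ℝ)) (fun t => F t k ^ m / S t)
        (fun t _ => by positivity) (by rw [sum_const, ← hm, nsmul_eq_mul]; field_simp)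
        (fun t ht => div_nonneg (pow_nonneg (hF t ht k hk) _) (hS0 t ht))
      have h3 : ∏ t ∈ T, (F t k ^ m / S t) ^ (1 / (m : ℝ)) = (∏ t ∈ T, F t k) / ∏ t ∈ T, r t := by
        rw [← prod_div_distrib]
        apply prod_congr rfl
        intro t ht
        rw [Real.div_rpow (pow_nonneg (hF t ht k hk) _) (hS0 t ht), ← Real.rpow_natCast (F t k),
          ← Real.rpow_mul (hF t ht k hk), mul_one_div_cancel hm0.ne', Real.rpow_one]
      rw [h3, div_le_iff₀ hR] at h2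
      linarith
    have h4 : ∑ k ∈ K, ∏ t ∈ T, F t k ≤ ∏ t ∈ T, r t := by
      calc ∑ k ∈ K, ∏ t ∈ T, F t k ≤ ∑ k ∈ K, (∏ t ∈ T, r t) * ∑ t ∈ T, (1 / (m:ℝ)) * (F t k ^ m / S t) :=
            sum_le_sum h1
        _ = (∏ t ∈ T, r t) * ∑ t ∈ T, (1 / (m:ℝ)) * (S t / S t) := by
            rw [← mul_sum, sum_comm]
            congr 1
            apply sum_congr rfl
            intro t _
            rw [← mul_sum, ← sum_div]
        _ = ∏ t ∈ T, r t := by
            have : ∑ t ∈ T, (1 / (m:ℝ)) * (S t / S t) = 1 := by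
              rw [sum_congr rfl (fun t ht => by rw [div_self (hSp t ht).ne', mul_one]), sum_const, ← hm, nsmul_eq_mul]
              field_simp
            rw [this, mul_one]
    have h5 : 0 ≤ ∑ k ∈ K, ∏ t ∈ T, F t k := sum_nonneg fun k hk => prod_nonneg fun t ht => hF t ht k hk
    calc (∑ k ∈ K, ∏ t ∈ T, F t k) ^ m ≤ (∏ t ∈ T, r t) ^ m := pow_le_pow_left₀ h5 h4 m
      _ = ∏ t ∈ T, r t ^ m := (prod_pow _ _ _).symm
      _ = ∏ t ∈ T, S t := prod_congr rfl hrm

lemma sum_le_of_pow {κ τ : Type*} (K : Finset κ) (T : Finset τ) (v : κ → ℝ) (L : τ → κ → ℝ)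
    (hv : ∀ k ∈ K, 0 ≤ v k) (hL : ∀ t ∈ T, ∀ k ∈ K, 0 ≤ L t k)
    (h : ∀ k ∈ K, v k ^ T.card ≤ ∏ t ∈ T, L t k) :
    (∑ k ∈ K, v k) ^ T.card ≤ ∏ t ∈ T, ∑ k ∈ K, L t k := by
  classical
  rcases T.eq_empty_or_nonempty with rfl | hne
  · simp
  set m := T.card with hm
  have hm1 : 1 ≤ m := card_pos.2 hne
  have hm0 : (0:ℝ) < m := by exact_mod_cast hm1
  set F : τ → κ → ℝ := fun t k => L t k ^ (1 / (m : ℝ)) with hF
  have hF0 : ∀ t ∈ T, ∀ k ∈ K, 0 ≤ F t k := fun t ht k hk => Real.rpow_nonneg (hL t ht k hk) _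
  have hFm : ∀ t ∈ T, ∀ k ∈ K, F t k ^ m = L t k := by
    intro t ht k hk
    rw [hF]
    beta_reduce
    rw [← Real.rpow_natCast, ← Real.rpow_mul (hL t ht k hk), one_div, inv_mul_cancel₀ hm0.ne', Real.rpow_one]
  have h1 : ∀ k ∈ K, v k ≤ ∏ t ∈ T, F t k := by
    intro k hk
    have h2 : v k ^ m ≤ (∏ t ∈ T, F t k) ^ m := by
      rw [← prod_pow, prod_congr rfl (fun t ht => hFm t ht k hk)]
      exact h k hk
    exact le_of_pow_le_pow_left₀ (by omega) (prod_nonneg fun t ht => hF0 t ht k hk) h2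
  calc (∑ k ∈ K, v k) ^ m ≤ (∑ k ∈ K, ∏ t ∈ T, F t k) ^ m :=
        pow_le_pow_left₀ (sum_nonneg hv) (sum_le_sum h1) m
    _ ≤ ∏ t ∈ T, ∑ k ∈ K, F t k ^ m := holder_pow K T F hF0
    _ = ∏ t ∈ T, ∑ k ∈ K, L t k := prod_congr rfl fun t ht => sum_congr rfl fun k hk => hFm t ht k hk

/-- the multilinear form -/
noncomputable def Lam {ι X : Type*} [Fintype ι] (R : Finset ℕ) (XS : Finset X) (σ : X → ι → ℕ)
    (f : ι → ℕ → ℝ) : ℝ :=
  ∑ n ∈ R, ∑ x ∈ XS, ∏ i, f i (n + σ x i)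

lemma Lam_nonneg {ι X : Type*} [Fintype ι] (R : Finset ℕ) (XS : Finset X) (σ : X → ι → ℕ)
    (f : ι → ℕ → ℝ) (hf : ∀ i n, 0 ≤ f i n) : 0 ≤ Lam R XS σ f :=
  sum_nonneg fun _ _ => sum_nonneg fun _ _ => prod_nonneg fun _ _ => hf _ _

/-- the pattern satisfies a Hölder inequality -/
def Hol {ι X : Type*} [Fintype ι] (XS : Finset X) (σ : X → ι → ℕ) : Prop :=
  ∀ (R : Finset ℕ) (f : ι → ℕ → ℝ), (∀ i n, 0 ≤ f i n) →
    Lam R XS σ f ^ Fintype.card ι ≤ ∏ i, Lam R XS σ (fun _ => f i)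

lemma Hol_unique {ι X : Type*} [Fintype ι] [Unique ι] (XS : Finset X) (σ : X → ι → ℕ) : Hol XS σ := by
  intro R f _
  rw [Fintype.card_unique, pow_one, Fintype.prod_unique]
  apply le_of_eq
  unfold Lam
  apply sum_congr rfl
  intro n _
  apply sum_congr rfl
  intro x _
  rw [Fintype.prod_unique, Fintype.prod_unique]

/-- extension of a pattern by one further direction -/
theorem Hol_ext {ι X : Type*} [Fintype ι] (XS : Finset X) (σ : X → ι → ℕ) (h : Hol XS σ) (m : ℕ)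
    (A : Finset ℕ) :
    Hol (Fintype.piFinset (fun _ : Fin m => A) ×ˢ XS)
      (fun (bx : (Fin m → ℕ) × X) (ji : Fin m × ι) => bx.1 ji.1 + σ bx.2 ji.2) := by
  classical
  intro R f hf
  set P := Fintype.piFinset (fun _ : Fin m => A) with hP
  set φ : Fin m → ℕ × X → ℕ → ℝ := fun j nx a => ∏ i, f (j, i) (nx.1 + a + σ nx.2 i) with hφ
  have hφ0 : ∀ j nx a, 0 ≤ φ j nx a := fun j nx a => prod_nonneg fun i _ => hf _ _
  set F : Fin m → ℕ × X → ℝ := fun j nx => ∑ a ∈ A, φ j nx a with hFd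
  have hF0 : ∀ j nx, 0 ≤ F j nx := fun j nx => sum_nonneg fun a _ => hφ0 j nx a
  -- rewriting the form
  have e1 : Lam R (P ×ˢ XS) (fun (bx : (Fin m → ℕ) × X) (ji : Fin m × ι) => bx.1 ji.1 + σ bx.2 ji.2) f =
      ∑ nx ∈ R ×ˢ XS, ∏ j, F j nx := by
    unfold Lam
    rw [sum_product (s := R)]
    apply sum_congr rfl
    intro n _
    rw [sum_product_right]
    apply sum_congr rfl
    intro x _
    rw [hFd]
    beta_reduce
    rw [prod_univ_sum]
    apply sum_congr rfl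
    intro b _
    rw [Fintype.prod_prod_type]
    apply prod_congr rfl
    intro j _
    rw [hφ]
    beta_reduce
    apply prod_congr rfl
    intro i _
    simp only [add_assoc]
  -- the functions attached to a point
  set hb : Fin m → (Fin m → ℕ) → ι → ℕ → ℝ := fun j b i u => ∏ j', f (j, i) (u + b j') with hhb
  have hhb0 : ∀ j b i u, 0 ≤ hb j b i u := fun j b i u => prod_nonneg fun _ _ => hf _ _
  have e2 : ∀ j, ∑ nx ∈ R ×ˢ XS, F j nx ^ m = ∑ b ∈ P, Lam R XS σ (hb j b) := by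
    intro j
    have : ∀ nx, F j nx ^ m = ∑ b ∈ P, ∏ j', φ j nx (b j') := by
      intro nx
      have := prod_univ_sum (fun _ : Fin m => A) (fun _ a => φ j nx a)
      rw [prod_const, card_univ, Fintype.card_fin] at this
      exact this
    simp_rw [this]
    rw [sum_comm]
    apply sum_congr rfl
    intro b _
    unfold Lam
    rw [sum_product]
    apply sum_congr rfl
    intro n _
    apply sum_congr rfl
    intro x _
    rw [hφ, hhb]
    beta_reduce
    rw [prod_comm]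
    apply prod_congr rfl
    intro i _
    apply prod_congr rfl
    intro j' _
    congr 1
    ring
  have e3 : ∀ j i, ∑ b ∈ P, Lam R XS σ (fun _ => hb j b i) =
      Lam R (P ×ˢ XS) (fun (bx : (Fin m → ℕ) × X) (ji : Fin m × ι) => bx.1 ji.1 + σ bx.2 ji.2)
        (fun _ => f (j, i)) := by
    intro j i
    unfold Lam
    rw [sum_comm]
    apply sum_congr rfl
    intro n _
    rw [sum_product]
    apply sum_congr rfl
    intro b _
    apply sum_congr rfl
    intro x _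
    rw [Fintype.prod_prod_type, prod_comm]
    apply prod_congr rfl
    intro i' _
    beta_reduce
    apply prod_congr rfl
    intro j' _
    congr 1
    ring
  have k1 : (∑ nx ∈ R ×ˢ XS, ∏ j, F j nx) ^ m ≤ ∏ j, ∑ nx ∈ R ×ˢ XS, F j nx ^ m := by
    have := holder_pow (R ×ˢ XS) (univ : Finset (Fin m)) F (fun j _ nx _ => hF0 j nx)
    rw [card_univ, Fintype.card_fin] at this
    exact this
  have k2 : ∀ j, (∑ nx ∈ R ×ˢ XS, F j nx ^ m) ^ Fintype.card ι ≤
      ∏ i, Lam R (P ×ˢ XS) (fun (bx : (Fin m → ℕ) × X) (ji : Fin m × ι) => bx.1 ji.1 + σ bx.2 ji.2)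
        (fun _ => f (j, i)) := by
    intro j
    rw [e2 j]
    have := sum_le_of_pow P (univ : Finset ι) (fun b => Lam R XS σ (hb j b))
      (fun i b => Lam R XS σ (fun _ => hb j b i)) (fun b _ => Lam_nonneg _ _ _ _ (hhb0 j b))
      (fun i _ b _ => Lam_nonneg _ _ _ _ (fun _ u => hhb0 j b i u)) (fun b _ => by
        rw [card_univ]
        exact h R (hb j b) (hhb0 j b))
    rw [card_univ] at this
    refine this.trans (le_of_eq ?_)
    apply prod_congr rfl
    intro i _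
    exact e3 j i
  rw [e1, Fintype.card_prod, Fintype.card_fin, pow_mul]
  calc ((∑ nx ∈ R ×ˢ XS, ∏ j, F j nx) ^ m) ^ Fintype.card ι
      ≤ (∏ j, ∑ nx ∈ R ×ˢ XS, F j nx ^ m) ^ Fintype.card ι :=
        pow_le_pow_left₀ (pow_nonneg (sum_nonneg fun nx _ => prod_nonneg fun j _ => hF0 j nx) _) k1 _
    _ = ∏ j, (∑ nx ∈ R ×ˢ XS, F j nx ^ m) ^ Fintype.card ι := (prod_pow _ _ _).symm
    _ ≤ ∏ j, ∏ i, Lam R (P ×ˢ XS) (fun (bx : (Fin m → ℕ) × X) (ji : Fin m × ι) => bx.1 ji.1 + σ bx.2 ji.2)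
        (fun _ => f (j, i)) := by
        apply prod_le_prod
        · intro j _
          exact pow_nonneg (sum_nonneg fun nx _ => pow_nonneg (hF0 j nx) _) _
        · intro j _
          exact k2 j
    _ = _ := by rw [Fintype.prod_prod_type]

/-- change of the index sets -/
lemma Lam_congr {ι ι' X X' : Type*} [Fintype ι] [Fintype ι'] (R : Finset ℕ) (XS : Finset X) (σ : X → ι → ℕ)
    (XS' : Finset X') (σ' : X' → ι' → ℕ) (e : ι' ≃ ι) (g : X' ≃ X) (hg : ∀ x', x' ∈ XS' ↔ g x' ∈ XS)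
    (hσ : ∀ x' i', σ' x' i' = σ (g x') (e i')) (f : ι' → ℕ → ℝ) :
    Lam R XS' σ' f = Lam R XS σ (fun i => f (e.symm i)) := by
  unfold Lam
  apply sum_congr rfl
  intro n _
  apply sum_equiv g hg
  intro x' _
  rw [← Equiv.prod_comp e]
  apply prod_congr rfl
  intro i' _
  beta_reduce
  rw [hσ, Equiv.symm_apply_apply]

lemma Hol_congr {ι ι' X X' : Type*} [Fintype ι] [Fintype ι'] (XS : Finset X) (σ : X → ι → ℕ)
    (XS' : Finset X') (σ' : X' → ι' → ℕ) (e : ι' ≃ ι) (g : X' ≃ X) (hg : ∀ x', x' ∈ XS' ↔ g x' ∈ XS)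
    (hσ : ∀ x' i', σ' x' i' = σ (g x') (e i')) (h : Hol XS σ) : Hol XS' σ' := by
  intro R f hf
  rw [Lam_congr R XS σ XS' σ' e g hg hσ, Fintype.card_congr e]
  refine (h R _ (fun i n => hf _ n)).trans (le_of_eq ?_)
  rw [← Equiv.prod_comp e]
  apply prod_congr rfl
  intro i' _
  rw [Lam_congr R XS σ XS' σ' e g hg hσ, Equiv.symm_apply_apply]

section grid

variable {J : Type} [Fintype J] [DecidableEq J]

/-- the points of a grid pattern -/
def pts (m : J → ℕ) (x : ∀ j, Fin (m j) → ℕ) (i : ∀ j, Fin (m j)) : ℕ := ∑ j, x j (i j)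

/-- the family of the grid patterns with entries in the sets `A j` -/
def XS (m : J → ℕ) (A : J → Finset ℕ) : Finset (∀ j, Fin (m j) → ℕ) :=
  Fintype.piFinset fun j => Fintype.piFinset fun _ : Fin (m j) => A j

lemma mem_XS {m : J → ℕ} {A : J → Finset ℕ} {x : ∀ j, Fin (m j) → ℕ} :
    x ∈ XS m A ↔ ∀ j i, x j i ∈ A j := by
  unfold XS
  simp only [Fintype.mem_piFinset]

lemma pts_split (m : J → ℕ) (j₀ : J) (x : ∀ j, Fin (m j) → ℕ) (i : ∀ j, Fin (m j)) :
    pts m x i = x j₀ (i j₀) + pts (fun j : {j // j ≠ j₀} => m j) (fun j => x j) (fun j => i j) := by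
  unfold pts
  exact Fintype.sum_eq_add_sum_subtype_ne (fun j => x j (i j)) j₀

end grid

theorem Hol_grid_aux (n : ℕ) : ∀ (J : Type) [Fintype J] [DecidableEq J] (m : J → ℕ) (A : J → Finset ℕ),
    Fintype.card J = n → Hol (XS m A) (pts m) := by
  induction n with
  | zero =>
    intro J _ _ m A hJ
    have : IsEmpty J := Fintype.card_eq_zero_iff.1 hJ
    exact Hol_unique _ _
  | succ n ih =>
    intro J _ _ m A hJ
    obtain ⟨j₀⟩ : Nonempty J := Fintype.card_pos_iff.1 (by omega)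
    have h1 := ih {j // j ≠ j₀} (fun j => m j) (fun j => A j) (by
      rw [Fintype.card_subtype_compl, Fintype.card_subtype_eq]; omega)
    have h2 := Hol_ext _ _ h1 (m j₀) (A j₀)
    refine Hol_congr _ _ _ _ (Equiv.piSplitAt j₀ (fun j => Fin (m j)))
      (Equiv.piSplitAt j₀ (fun j => (Fin (m j) → ℕ))) ?_ ?_ h2
    · intro x
      simp only [mem_product, Fintype.mem_piFinset, mem_XS, Equiv.piSplitAt_apply]
      constructor
      · intro h
        exact ⟨fun i => h j₀ i, fun j i => h j i⟩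
      · rintro ⟨h3, h4⟩ j i
        by_cases hj : j = j₀
        · subst hj; exact h3 i
        · exact h4 ⟨j, hj⟩ i
    · intro x i
      exact pts_split m j₀ x i

/-- the Hölder inequality for the grid patterns -/
theorem Hol_grid (J : Type) [Fintype J] [DecidableEq J] (m : J → ℕ) (A : J → Finset ℕ) :
    Hol (XS m A) (pts m) := Hol_grid_aux _ J m A rfl

end Pool.Agent.TH891.SP
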