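import Mathlib
import Pool.Agent.TH891.SP.S1
import Pool.Agent.H387R2.U8

set_option autoImplicit false

/-! The Hardy-Littlewood lower bound for patterns with a Hölder inequality, helper891. -/

namespace Pool.Agent.TH891.SP

open Finset Pool.Agent.H387R2

/-- indicator of the primes -/
noncomputable def pr (n : ℕ) : ℝ := if n.Prime then 1 else 0

/-- indicator of coprimality to `W` -/
noncomputable def hc (W n : ℕ) : ℝ := if Nat.Coprime W n then 1 else 0

lemma pr_nonneg (n : ℕ) : 0 ≤ pr n := by unfold pr; split_ifs <;> norm_num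
lemma pr_le_one (n : ℕ) : pr n ≤ 1 := by unfold pr; split_ifs <;> norm_num
lemma hc_nonneg (W n : ℕ) : 0 ≤ hc W n := by unfold hc; split_ifs <;> norm_num

lemma prod_pr {ι : Type*} [Fintype ι] (v : ι → ℕ) :
    ∏ i, pr (v i) = if ∀ i, (v i).Prime then 1 else 0 := by
  classical
  unfold pr
  rw [prod_ite_zero]
  simp

lemma prod_hc {ι : Type*} [Fintype ι] (W : ℕ) (v : ι → ℕ) :
    ∏ i, hc W (v i) = if ∀ i, Nat.Coprime W (v i) then 1 else 0 := by
  classical
  unfold hc
  rw [prod_ite_zero]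
  simp

/-- the set of points of a pattern -/
def TT {ι : Type*} [Fintype ι] (v : ι → ℕ) : Finset ℕ := univ.image v

lemma mem_TT {ι : Type*} [Fintype ι] {v : ι → ℕ} {t : ℕ} : t ∈ TT v ↔ ∃ i, v i = t := by
  unfold TT; simp

/-- good classes of a pattern -/
def good {ι : Type*} [Fintype ι] (W : ℕ) (v : ι → ℕ) : Finset ℕ :=
  (range W).filter (fun m => ∀ t ∈ TT v, Nat.Coprime W (m + t))

lemma card_good {ι : Type*} [Fintype ι] (W : ℕ) (v : ι → ℕ) : (good W v).card = Uni.gT W (TT v) := rfl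

lemma mem_good {ι : Type*} [Fintype ι] {W : ℕ} {v : ι → ℕ} {b : ℕ} :
    b ∈ good W v ↔ b < W ∧ ∀ i, Nat.Coprime W (b + v i) := by
  unfold good
  rw [mem_filter, mem_range]
  constructor
  · rintro ⟨h1, h2⟩
    exact ⟨h1, fun i => h2 _ (mem_TT.2 ⟨i, rfl⟩)⟩
  · rintro ⟨h1, h2⟩
    refine ⟨h1, fun t ht => ?_⟩
    obtain ⟨i, rfl⟩ := mem_TT.1 ht
    exact h2 i

lemma coprime_mod {W a b t : ℕ} (h : a ≡ b [MOD W]) (hb : Nat.Coprime W (b + t)) : Nat.Coprime W (a + t) := by
  have h1 : (a + t) ≡ (b + t) [MOD W] := h.add_right t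
  rw [Nat.Coprime, Nat.gcd_comm] at hb ⊢
  rw [← hb]
  exact h1.gcd_eq

lemma coprime_q {q y n t c : ℕ} (hq : 1 ≤ q) (hqy : q ≤ y) (ht : t ≡ c [MOD q])
    (h : Nat.Coprime (Uni.WW y) (n + t)) : Nat.Coprime q (n + c) := by
  by_contra hb
  obtain ⟨p, hp, hpq, hpb⟩ := Nat.Prime.not_coprime_iff_dvd.1 hb
  have h1 : p ∣ n + t := by
    have h2 : n + t ≡ n + c [MOD p] := (Nat.ModEq.add_left n ht).of_dvd hpq
    exact (Nat.modEq_zero_iff_dvd.1 (h2.trans (Nat.modEq_zero_iff_dvd.2 hpb)))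
  have h3 : p ∣ Uni.WW y := by
    unfold Uni.WW
    apply dvd_prod_of_mem
    rw [Nat.mem_primesBelow]
    have := Nat.le_of_dvd (by omega) hpq
    exact ⟨by omega, hp⟩
  have := Nat.dvd_gcd h3 h1
  rw [Nat.Coprime] at h
  rw [h] at this
  exact hp.one_lt.ne' (Nat.dvd_one.1 this)

/-- the range of summation -/
def Rq (k q c N M : ℕ) : Finset ℕ := (Ioc (k + 1) (N - M)).filter (fun n => Nat.Coprime q (n + c))

variable {k : ℕ} {C δ : ℝ} {q N M y : ℕ}

/-- one prime condition, coprimality at the other points -/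
lemma mixed_lower {ι : Type*} [Fintype ι] [DecidableEq ι] (hP : Uni.Par k C δ q N M y) (hδ : 0 < δ)
    (hq : 1 ≤ q) {c : ℕ} (v : ι → ℕ) (hv : ∀ i, v i ≤ M) (hvc : ∀ i, v i ≡ c [MOD q]) (i₀ : ι) :
    (1 - 2 * δ) * (N / (Nat.totient (Uni.WW y) * Real.log N)) * (good (Uni.WW y) v).card ≤
      ∑ n ∈ Rq k q c N M, ∏ i, (if i = i₀ then pr else hc (Uni.WW y)) (n + v i) := by
  classical
  set W := Uni.WW y with hW
  have h1 : (1 - 2 * δ) * (N / (Nat.totient W * Real.log N)) * (good W v).card ≤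
      ∑ b ∈ good W v, ∑ n ∈ Ioc (k + 1) (N - M), (if n ≡ b [MOD W] ∧ (n + v i₀).Prime then (1:ℝ) else 0) := by
    rw [mul_comm, ← nsmul_eq_mul, ← sum_const]
    apply sum_le_sum
    intro b hb
    refine (Uni.class_lower hP hδ (hv i₀) ((mem_good.1 hb).2 i₀)).trans (le_of_eq ?_)
    rw [← sum_filter, sum_const, nsmul_eq_mul, mul_one]
  refine h1.trans ?_
  rw [sum_comm]
  unfold Rq
  rw [sum_filter]
  apply sum_le_sum
  intro n _
  by_cases hn : ∃ b ∈ good W v, n ≡ b [MOD W] ∧ (n + v i₀).Prime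
  · obtain ⟨b, hb, hnb, hnp⟩ := hn
    have hcop : ∀ i, Nat.Coprime W (n + v i) := fun i => coprime_mod hnb ((mem_good.1 hb).2 i)
    have h2 : Nat.Coprime q (n + c) := coprime_q hq hP.hqy (hvc i₀) (hcop i₀)
    rw [if_pos h2]
    have h3 : ∏ i, (if i = i₀ then pr else hc W) (n + v i) = 1 := by
      apply prod_eq_one
      intro i _
      by_cases hi : i = i₀
      · rw [if_pos hi, hi]; unfold pr; rw [if_pos hnp]
      · rw [if_neg hi]; unfold hc; rw [if_pos (hcop i)]
    rw [h3, ← sum_filter, sum_const, nsmul_eq_mul, mul_one]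
    have h4 : ((good W v).filter (fun b => n ≡ b [MOD W] ∧ (n + v i₀).Prime)).card ≤ 1 := by
      rw [card_le_one]
      intro b1 hb1 b2 hb2
      rw [mem_filter, mem_good] at hb1 hb2
      have h5 : b1 ≡ b2 [MOD W] := hb1.2.1.symm.trans hb2.2.1
      rw [Nat.ModEq, Nat.mod_eq_of_lt hb1.1.1, Nat.mod_eq_of_lt hb2.1.1] at h5
      exact h5
    exact_mod_cast h4
  · have h2 : ∑ b ∈ good W v, (if n ≡ b [MOD W] ∧ (n + v i₀).Prime then (1:ℝ) else 0) = 0 := by
      apply sum_eq_zero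
      intro b hb
      have h3 : ¬ (n ≡ b [MOD W] ∧ (n + v i₀).Prime) := fun h => hn ⟨b, hb, h⟩
      rw [if_neg h3]
    rw [h2]
    split_ifs
    · apply prod_nonneg
      intro i _
      split_ifs
      · exact pr_nonneg _
      · exact hc_nonneg _ _
    · exact le_rfl

/-- coprimality at all points -/
lemma coprime_upper {ι : Type*} [Fintype ι] (hP : Uni.Par k C δ q N M y) {c : ℕ} (v : ι → ℕ) :
    ∑ n ∈ Rq k q c N M, ∏ i, hc (Uni.WW y) (n + v i) ≤
      (1 + δ) * (N / Uni.WW y) * (good (Uni.WW y) v).card := by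
  classical
  set W := Uni.WW y with hW
  have hW0 : 0 < W := Uni.WW_pos y
  have h1 : ∑ b ∈ good W v, (((Ioc (k + 1) (N - M)).filter (fun n => n ≡ b [MOD W])).card : ℝ) ≤
      (1 + δ) * (N / W) * (good W v).card := by
    rw [mul_comm, ← nsmul_eq_mul, ← sum_const]
    apply sum_le_sum
    intro b _
    exact Uni.size_upper hP b
  refine le_trans ?_ h1
  calc ∑ n ∈ Rq k q c N M, ∏ i, hc W (n + v i) ≤ ∑ n ∈ Ioc (k + 1) (N - M), ∏ i, hc W (n + v i) := by
        apply sum_le_sum_of_subset_of_nonneg (filter_subset _ _)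
        intro n _ _
        exact prod_nonneg fun i _ => hc_nonneg _ _
    _ ≤ ∑ n ∈ Ioc (k + 1) (N - M), ∑ b ∈ good W v, (if n ≡ b [MOD W] then (1:ℝ) else 0) := by
        apply sum_le_sum
        intro n _
        rw [prod_hc]
        split_ifs with h
        · have h2 : n % W ∈ good W v := by
            rw [mem_good]
            refine ⟨Nat.mod_lt _ hW0, fun i => ?_⟩
            exact coprime_mod (Nat.mod_modEq n W) (h i)
          calc (1:ℝ) = if n ≡ n % W [MOD W] then (1:ℝ) else 0 := by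
                rw [if_pos (Nat.mod_modEq n W).symm]
            _ ≤ _ := single_le_sum (f := fun b => if n ≡ b [MOD W] then (1:ℝ) else 0)
                (fun b _ => by split_ifs <;> norm_num) h2
        · apply sum_nonneg
          intro b _
          split_ifs <;> norm_num
    _ = _ := by
        rw [sum_comm]
        apply sum_congr rfl
        intro b _
        rw [← sum_filter, sum_const, nsmul_eq_mul, mul_one]

/-- the constant -/
noncomputable def c2 (k : ℕ) (δ : ℝ) : ℝ := (1 - 2 * δ) ^ (k + 1) / (1 + δ) ^ k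

/-- the Hardy-Littlewood lower bound for the whole sum -/
theorem total_lower {ι X : Type*} [Fintype ι] (hcard : Fintype.card ι = k + 1) (XS : Finset X)
    (σ : X → ι → ℕ) (hH : Hol XS σ) (hP : Uni.Par k C δ q N M y) (hδ : 0 < δ) (hδ1 : δ ≤ 1 / 4)
    (hq : 1 ≤ q) {c : ℕ} (hv : ∀ x ∈ XS, ∀ i, σ x i ≤ M) (hvc : ∀ x ∈ XS, ∀ i, σ x i ≡ c [MOD q]) :
    c2 k δ * (N / Real.log N ^ (k + 1)) *
      (((Uni.WW y : ℝ) / Nat.totient (Uni.WW y)) ^ (k + 1) *
        ((∑ x ∈ XS, ((good (Uni.WW y) (σ x)).card : ℝ)) / Uni.WW y)) ≤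
      Lam (Rq k q c N M) XS σ (fun _ => pr) := by
  classical
  obtain ⟨i₀⟩ : Nonempty ι := Fintype.card_pos_iff.1 (by omega)
  set W := Uni.WW y with hW
  have hWp : 0 < W := Uni.WW_pos y
  have hW0 : (0:ℝ) < W := by exact_mod_cast hWp
  have hφ0 : (0:ℝ) < Nat.totient W := by exact_mod_cast Nat.totient_pos.2 hWp
  obtain ⟨G, hG⟩ : ∃ G : ℝ, G = ∑ x ∈ XS, ((good W (σ x)).card : ℝ) := ⟨_, rfl⟩
  have hG0 : 0 ≤ G := by rw [hG]; exact sum_nonneg fun _ _ => Nat.cast_nonneg _
  rw [← hG]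
  have hL : 0 < Real.log N := by linarith [hP.hL]
  have hN0 : (0:ℝ) ≤ N := Nat.cast_nonneg N
  set R := Rq k q c N M with hR
  have hP0 : 0 ≤ Lam R XS σ (fun _ => pr) := Lam_nonneg _ _ _ _ fun _ => pr_nonneg
  have hN1 : 0 < (N:ℝ) := by
    rcases hN0.lt_or_eq with h | h
    · exact h
    · exfalso
      rw [← h, Real.log_zero] at hL
      exact lt_irrefl _ hL
  -- the mixed form
  have m1 : (1 - 2 * δ) * (N / (Nat.totient W * Real.log N)) * G ≤
      Lam R XS σ (fun i => if i = i₀ then pr else hc W) := by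
    unfold Lam
    rw [sum_comm, hG, mul_sum]
    apply sum_le_sum
    intro x hx
    exact mixed_lower hP hδ hq (σ x) (hv x hx) (hvc x hx) i₀
  have m2 : Lam R XS σ (fun _ => hc W) ≤ (1 + δ) * (N / W) * G := by
    unfold Lam
    rw [sum_comm, hG, mul_sum]
    apply sum_le_sum
    intro x hx
    exact coprime_upper hP (σ x)
  have m3 : 0 ≤ Lam R XS σ (fun _ => hc W) := Lam_nonneg _ _ _ _ fun _ => hc_nonneg W
  have h1 := hH R (fun i => if i = i₀ then pr else hc W) (by
    intro i n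
    split_ifs
    · exact pr_nonneg _
    · exact hc_nonneg _ _)
  have h2 : ∏ i, Lam R XS σ (fun _ => (if i = i₀ then pr else hc W)) =
      Lam R XS σ (fun _ => pr) * Lam R XS σ (fun _ => hc W) ^ k := by
    rw [← mul_prod_erase univ _ (mem_univ i₀), if_pos rfl]
    congr 1
    have : ∀ i ∈ univ.erase i₀, Lam R XS σ (fun _ => (if i = i₀ then pr else hc W)) = Lam R XS σ (fun _ => hc W) := by
      intro i hi
      rw [if_neg (ne_of_mem_erase hi)]
    rw [prod_congr rfl this, prod_const, card_erase_of_mem (mem_univ _), card_univ, hcard]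
    congr 1
  rw [h2, hcard] at h1
  have hu0 : 0 ≤ (1 - 2 * δ) * (N / (Nat.totient W * Real.log N)) * G := by
    have h12 : 0 ≤ 1 - 2 * δ := by linarith
    exact mul_nonneg (mul_nonneg h12 (div_nonneg hN0 (mul_nonneg hφ0.le hL.le))) hG0
  have h3 : ((1 - 2 * δ) * (N / (Nat.totient W * Real.log N)) * G) ^ (k + 1) ≤
      Lam R XS σ (fun _ => pr) * ((1 + δ) * (N / W) * G) ^ k :=
    (pow_le_pow_left₀ hu0 m1 _).trans (h1.trans (mul_le_mul_of_nonneg_left (pow_le_pow_left₀ m3 m2 _) hP0))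
  rcases hG0.lt_or_eq with hGp | hGz
  · have hden : 0 < ((1 + δ) * (N / W) * G) ^ k := by positivity
    rw [← div_le_iff₀ hden] at h3
    refine le_trans (le_of_eq ?_) h3
    unfold c2
    rw [eq_div_iff hden.ne']
    have hδ' : (1 + δ) ≠ 0 := by linarith
    simp only [mul_pow, div_pow, pow_succ]
    field_simp
  · rw [← hGz]
    simp only [zero_div, mul_zero]
    exact hP0

/-- lower bound for the sum of the local densities -/
theorem good_lower {ι X : Type*} [Fintype ι] (hcard : Fintype.card ι = k + 1) (XS : Finset X)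
    (σ : X → ι → ℕ) (hH : Hol XS σ) (hP : Uni.Par k C δ q N M y) (hδ : 0 < δ)
    (hq : 1 ≤ q) {c : ℕ} (hvc : ∀ x ∈ XS, ∀ i, σ x i ≡ c [MOD q]) :
    (XS.card : ℝ) * (((q : ℝ) / Nat.totient q) / (1 + δ)) ^ k ≤
      ((Uni.WW y : ℝ) / Nat.totient (Uni.WW y)) ^ (k + 1) *
        ((∑ x ∈ XS, ((good (Uni.WW y) (σ x)).card : ℝ)) / Uni.WW y) := by
  classical
  obtain ⟨i₀⟩ : Nonempty ι := Fintype.card_pos_iff.1 (by omega)
  set W := Uni.WW y with hW
  have hWp : 0 < W := Uni.WW_pos y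
  have hW0 : (0:ℝ) < W := by exact_mod_cast hWp
  have hφ0 : (0:ℝ) < Nat.totient W := by exact_mod_cast Nat.totient_pos.2 hWp
  have hq0 : (0:ℝ) < q := by exact_mod_cast hq
  have hφq0 : (0:ℝ) < Nat.totient q := by exact_mod_cast Nat.totient_pos.2 hq
  obtain ⟨G, hG⟩ : ∃ G : ℝ, G = ∑ x ∈ XS, ((good W (σ x)).card : ℝ) := ⟨_, rfl⟩
  have hG0 : 0 ≤ G := by rw [hG]; exact sum_nonneg fun _ _ => Nat.cast_nonneg _
  rw [← hG]
  set R := Uni.gd W q c with hR
  have hqW : ∀ b t, t ≡ c [MOD q] → Nat.Coprime W (b + t) → Nat.Coprime q (b + c) :=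
    fun b t ht h => coprime_q hq hP.hqy ht h
  have m1 : Lam R XS σ (fun i => if i = i₀ then hc W else fun _ => 1) = XS.card * Nat.totient W := by
    unfold Lam
    rw [sum_comm, card_eq_sum_ones, Nat.cast_sum, sum_mul]
    apply sum_congr rfl
    intro x hx
    have e1 : ∀ n, ∏ i, (if i = i₀ then hc W else fun _ => 1) (n + σ x i) = hc W (n + σ x i₀) := by
      intro n
      rw [← mul_prod_erase univ _ (mem_univ i₀), if_pos rfl, prod_eq_one, mul_one]
      intro i hi
      rw [if_neg (ne_of_mem_erase hi)]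
    simp_rw [e1]
    unfold hc
    rw [← sum_filter, sum_const, nsmul_eq_mul, mul_one, Nat.cast_one, one_mul]
    congr 1
    rw [← Nat.filter_coprime_Ico_eq_totient W (σ x i₀), ← Uni.shift_card W (σ x i₀) W (fun z => W.Coprime z)]
    congr 1
    rw [hR]
    unfold Uni.gd
    rw [filter_filter]
    apply filter_congr
    intro b _
    constructor
    · rintro ⟨_, h⟩; exact h
    · intro h; exact ⟨hqW _ _ (hvc x hx i₀) h, h⟩
  have m2 : Lam R XS σ (fun _ _ => 1) = R.card * XS.card := by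
    unfold Lam
    simp
  have m3 : Lam R XS σ (fun _ => hc W) = G := by
    unfold Lam
    rw [sum_comm, hG]
    apply sum_congr rfl
    intro x hx
    simp_rw [prod_hc]
    rw [← sum_filter, sum_const, nsmul_eq_mul, mul_one]
    congr 2
    ext b
    rw [hR]
    unfold Uni.gd
    rw [mem_filter, mem_filter, mem_range, mem_good]
    constructor
    · rintro ⟨⟨h1, _⟩, h2⟩; exact ⟨h1, h2⟩
    · rintro ⟨h1, h2⟩; exact ⟨⟨h1, hqW _ _ (hvc x hx i₀) (h2 i₀)⟩, h2⟩
  have h1 := hH R (fun i => if i = i₀ then hc W else fun _ => 1) (by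
    intro i n
    split_ifs
    · exact hc_nonneg _ _
    · norm_num)
  have h2 : ∏ i, Lam R XS σ (fun _ => (if i = i₀ then hc W else fun _ => 1)) =
      Lam R XS σ (fun _ => hc W) * Lam R XS σ (fun _ _ => 1) ^ k := by
    rw [← mul_prod_erase univ _ (mem_univ i₀), if_pos rfl]
    congr 1
    have : ∀ i ∈ univ.erase i₀, Lam R XS σ (fun _ => (if i = i₀ then hc W else fun _ => 1)) =
        Lam R XS σ (fun _ _ => 1) := by
      intro i hi
      rw [if_neg (ne_of_mem_erase hi)]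
    rw [prod_congr rfl this, prod_const, card_erase_of_mem (mem_univ _), card_univ, hcard]
    congr 1
  rw [h2, hcard, m1, m2, m3] at h1
  have hRc : (R.card : ℝ) ≤ (1 + δ) * (Nat.totient q / q) * W := by
    have a1 : (R.card : ℝ) ≤ Nat.totient q * (((W / q : ℕ) : ℝ) + 1) := by exact_mod_cast Uni.card_gd W q c hq
    have a2 : ((W / q : ℕ) : ℝ) ≤ W / q := Nat.cast_div_le
    have a3 : (q:ℝ) ≤ δ * W := hP.hW4
    refine a1.trans ?_
    calc (Nat.totient q : ℝ) * (((W / q : ℕ) : ℝ) + 1) ≤ Nat.totient q * (W / q + δ * W / q) := by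
          apply mul_le_mul_of_nonneg_left _ hφq0.le
          apply add_le_add a2
          rw [le_div_iff₀ hq0]; linarith
      _ = _ := by field_simp
  rcases (Nat.cast_nonneg XS.card : (0:ℝ) ≤ XS.card).lt_or_eq with hXp | hXz
  · have h3 : ((XS.card : ℝ) * Nat.totient W) ^ (k + 1) ≤
        G * ((1 + δ) * (Nat.totient q / q) * W * XS.card) ^ k := by
      refine h1.trans (mul_le_mul_of_nonneg_left ?_ hG0)
      apply pow_le_pow_left₀ (by positivity)
      exact mul_le_mul_of_nonneg_right hRc hXp.le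
    have hden : 0 < ((1 + δ) * (Nat.totient q / q) * W * XS.card) ^ k := by positivity
    rw [← div_le_iff₀ hden] at h3
    have h4 : ((W:ℝ) / Nat.totient W) ^ (k + 1) * ((((XS.card : ℝ) * Nat.totient W) ^ (k + 1) /
        ((1 + δ) * (Nat.totient q / q) * W * XS.card) ^ k) / W) ≤
        ((W:ℝ) / Nat.totient W) ^ (k + 1) * (G / W) := by
      apply mul_le_mul_of_nonneg_left _ (by positivity)
      exact div_le_div_of_nonneg_right h3 hW0.le
    refine le_trans (le_of_eq ?_) h4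
    have hδ' : (0:ℝ) < 1 + δ := by linarith
    obtain ⟨D, hD⟩ : ∃ D : ℝ, D = (1 + δ) * (Nat.totient q / q) := ⟨_, rfl⟩
    have hD0 : 0 < D := by rw [hD]; positivity
    have e0 : ((q : ℝ) / Nat.totient q) / (1 + δ) = 1 / D := by
      rw [hD]; field_simp
    rw [e0, ← hD]
    have e1 : ((W:ℝ) / Nat.totient W) ^ (k + 1) * ((XS.card : ℝ) * Nat.totient W) ^ (k + 1) =
        ((W:ℝ) * XS.card) ^ k * (W * XS.card) := by
      rw [← mul_pow, ← pow_succ]
      congr 1
      field_simp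
    have e2 : (D * W * (XS.card : ℝ)) ^ k = D ^ k * ((W:ℝ) * XS.card) ^ k := by
      rw [mul_assoc, mul_pow]
    have hp : 0 < ((W:ℝ) * XS.card) ^ k := by positivity
    have hd : 0 < D ^ k := by positivity
    calc (XS.card : ℝ) * (1 / D) ^ k
        = (((W:ℝ) * XS.card) ^ k * (W * XS.card)) / (D ^ k * ((W:ℝ) * XS.card) ^ k) / W := by
          rw [one_div, inv_pow]
          generalize ((W:ℝ) * XS.card) ^ k = p at hp ⊢
          generalize D ^ k = d at hd ⊢
          field_simp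
      _ = _ := by
          rw [← e1, ← e2]
          ring
  · rw [← hXz, zero_mul]
    exact mul_nonneg (pow_nonneg (div_nonneg hW0.le hφ0.le) _) (div_nonneg hG0 hW0.le)

end Pool.Agent.TH891.SP
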