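import Mathlib
import Pool.Agent.TH891.SP.S2

set_option autoImplicit false

/-! Degenerate grids, helper891. -/

namespace Pool.Agent.TH891.SP

open Finset Pool.Agent.H387R2

/-- tuples with a coincidence -/
lemma coinc (m : ℕ) (A : Finset ℕ) (φ : ℕ → ℝ) (h0 : ∀ a, 0 ≤ φ a) (h1 : ∀ a, φ a ≤ 1) (j j' : Fin m)
    (hj : j ≠ j') (s₁ s₂ : ℕ) :
    ∑ b ∈ (Fintype.piFinset (fun _ : Fin m => A)).filter (fun b => b j + s₁ = b j' + s₂), ∏ i, φ (b i) ≤
      (∑ a ∈ A, φ a) ^ (m - 1) := by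
  classical
  set P := (Fintype.piFinset (fun _ : Fin m => A)).filter (fun b => b j + s₁ = b j' + s₂) with hP
  set rho : (Fin m → ℕ) → ({i : Fin m // i ≠ j} → ℕ) := fun b i => b i with hrho
  have e1 : ∑ b ∈ P, ∏ i, φ (b i) ≤ ∑ b ∈ P, ∏ i : {i : Fin m // i ≠ j}, φ (rho b i) := by
    apply sum_le_sum
    intro b _
    rw [Fintype.prod_eq_mul_prod_subtype_ne (fun i => φ (b i)) j]
    have : 0 ≤ ∏ i : {i : Fin m // i ≠ j}, φ (b i) := prod_nonneg fun i _ => h0 _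
    calc φ (b j) * ∏ i : {i : Fin m // i ≠ j}, φ (b i) ≤ 1 * ∏ i : {i : Fin m // i ≠ j}, φ (b i) :=
          mul_le_mul_of_nonneg_right (h1 _) this
      _ = _ := by rw [one_mul]
  have hinj : Set.InjOn rho P := by
    intro b hb b' hb' h
    rw [mem_coe, hP, mem_filter] at hb hb'
    have h2 : ∀ i, i ≠ j → b i = b' i := by
      intro i hi
      have := congrFun h ⟨i, hi⟩
      exact this
    funext i
    by_cases hi : i = j
    · have h3 := h2 j' hj.symm
      have h4 := hb.2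
      have h5 := hb'.2
      rw [hi]
      omega
    · exact h2 i hi
  have e2 : ∑ b ∈ P, ∏ i : {i : Fin m // i ≠ j}, φ (rho b i) =
      ∑ b ∈ P.image rho, ∏ i : {i : Fin m // i ≠ j}, φ (b i) := by
    rw [sum_image hinj]
  have hsub : P.image rho ⊆ Fintype.piFinset (fun _ : {i : Fin m // i ≠ j} => A) := by
    intro b' hb'
    obtain ⟨b, hb, rfl⟩ := mem_image.1 hb'
    rw [Fintype.mem_piFinset]
    intro i
    exact Fintype.mem_piFinset.1 (mem_filter.1 hb).1 i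
  have e3 : ∑ b ∈ P.image rho, ∏ i : {i : Fin m // i ≠ j}, φ (b i) ≤
      ∑ b ∈ Fintype.piFinset (fun _ : {i : Fin m // i ≠ j} => A), ∏ i : {i : Fin m // i ≠ j}, φ (b i) :=
    sum_le_sum_of_subset_of_nonneg hsub fun b _ _ => prod_nonneg fun i _ => h0 _
  have e4 : ∑ b ∈ Fintype.piFinset (fun _ : {i : Fin m // i ≠ j} => A), ∏ i : {i : Fin m // i ≠ j}, φ (b i) =
      (∑ a ∈ A, φ a) ^ (m - 1) := by
    have := prod_univ_sum (fun _ : {i : Fin m // i ≠ j} => A) (fun _ a => φ a)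
    rw [prod_const, card_univ, Fintype.card_subtype_compl, Fintype.card_subtype_eq, Fintype.card_fin] at this
    exact this.symm
  rw [← e4]
  exact e1.trans (e2.le.trans e3)

/-- Young's inequality -/
lemma young (m : ℕ) (hm : 1 ≤ m) {Y τ : ℝ} (hY : 0 ≤ Y) (hτ : 0 < τ) :
    Y ^ (m - 1) ≤ (1 / τ) * (((m - 1 : ℝ) / m) * Y ^ m + (1 / m) * τ ^ m) := by
  obtain ⟨n, rfl⟩ : ∃ n, m = n + 1 := ⟨m - 1, by omega⟩
  have hn : (0:ℝ) < (n:ℝ) + 1 := by positivity
  have h := Real.geom_mean_le_arith_mean2_weighted (w₁ := (n : ℝ) / (n + 1)) (w₂ := 1 / ((n:ℝ) + 1))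
    (p₁ := Y ^ (n + 1)) (p₂ := τ ^ (n + 1)) (by positivity) (by positivity) (by positivity) (by positivity)
    (by field_simp)
  have h1 : (Y ^ (n + 1)) ^ ((n : ℝ) / (n + 1)) = Y ^ n := by
    rw [← Real.rpow_natCast Y (n + 1), ← Real.rpow_mul hY, ← Real.rpow_natCast Y n]
    congr 1
    push_cast
    field_simp
  have h2 : (τ ^ (n + 1)) ^ (1 / ((n:ℝ) + 1)) = τ := by
    rw [← Real.rpow_natCast τ (n + 1), ← Real.rpow_mul hτ.le]
    have : ((n + 1 : ℕ) : ℝ) * (1 / ((n:ℝ) + 1)) = 1 := by push_cast; field_simp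
    rw [this, Real.rpow_one]
  rw [h1, h2] at h
  rw [Nat.add_sub_cancel]
  push_cast
  have e : (1 / τ) * ((((n:ℝ) + 1 - 1) / (n + 1)) * Y ^ (n + 1) + (1 / ((n:ℝ) + 1)) * τ ^ (n + 1)) =
      ((n : ℝ) / (n + 1) * Y ^ (n + 1) + 1 / ((n:ℝ) + 1) * τ ^ (n + 1)) / τ := by
    field_simp
    ring
  rw [e, le_div_iff₀ hτ]
  exact h

/-- degenerate members of an extended pattern -/
theorem deg_ext {ι X : Type*} [Fintype ι] (XS : Finset X) (σ : X → ι → ℕ) (m : ℕ) (hm : 1 ≤ m)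
    (A R : Finset ℕ) (f : ℕ → ℝ) (f0 : ∀ n, 0 ≤ f n) (f1 : ∀ n, f n ≤ 1)
    (p p' : Fin m × ι) (hp : p.1 ≠ p'.1) {τ : ℝ} (hτ : 0 < τ)
    (hP : (R.card : ℝ) * XS.card * τ ^ m ≤
      Lam R (Fintype.piFinset (fun _ : Fin m => A) ×ˢ XS)
      (fun (bx : (Fin m → ℕ) × X) (ji : Fin m × ι) => bx.1 ji.1 + σ bx.2 ji.2) (fun _ => f)) :
    ∑ n ∈ R, ∑ bx ∈ (Fintype.piFinset (fun _ : Fin m => A) ×ˢ XS).filter
        (fun bx => bx.1 p.1 + σ bx.2 p.2 = bx.1 p'.1 + σ bx.2 p'.2),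
        ∏ ji : Fin m × ι, f (n + (bx.1 ji.1 + σ bx.2 ji.2)) ≤
      (1 / τ) * Lam R (Fintype.piFinset (fun _ : Fin m => A) ×ˢ XS)
      (fun (bx : (Fin m → ℕ) × X) (ji : Fin m × ι) => bx.1 ji.1 + σ bx.2 ji.2) (fun _ => f) := by
  classical
  set P := Fintype.piFinset (fun _ : Fin m => A) with hPd
  set φ : ℕ → X → ℕ → ℝ := fun n x a => ∏ i, f (n + (a + σ x i)) with hφ
  have hφ0 : ∀ n x a, 0 ≤ φ n x a := fun n x a => prod_nonneg fun i _ => f0 _
  have hφ1 : ∀ n x a, φ n x a ≤ 1 := fun n x a => prod_le_one (fun i _ => f0 _) fun i _ => f1 _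
  set Y : ℕ → X → ℝ := fun n x => ∑ a ∈ A, φ n x a with hY
  have hY0 : ∀ n x, 0 ≤ Y n x := fun n x => sum_nonneg fun a _ => hφ0 n x a
  set L := Lam R (P ×ˢ XS) (fun (bx : (Fin m → ℕ) × X) (ji : Fin m × ι) => bx.1 ji.1 + σ bx.2 ji.2) (fun _ => f)
    with hL
  have e0 : ∀ n (b : Fin m → ℕ) x, ∏ ji : Fin m × ι, f (n + (b ji.1 + σ x ji.2)) = ∏ j, φ n x (b j) := by
    intro n b x
    rw [Fintype.prod_prod_type]
  have e1 : L = ∑ n ∈ R, ∑ x ∈ XS, Y n x ^ m := by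
    rw [hL]
    unfold Lam
    apply sum_congr rfl
    intro n _
    rw [sum_product_right]
    apply sum_congr rfl
    intro x _
    have := prod_univ_sum (fun _ : Fin m => A) (fun _ a => φ n x a)
    rw [prod_const, card_univ, Fintype.card_fin] at this
    rw [hY]
    beta_reduce
    rw [this]
    apply sum_congr rfl
    intro b _
    exact e0 n b x
  have e2 : ∑ n ∈ R, ∑ bx ∈ (P ×ˢ XS).filter (fun bx => bx.1 p.1 + σ bx.2 p.2 = bx.1 p'.1 + σ bx.2 p'.2),
        ∏ ji : Fin m × ι, f (n + (bx.1 ji.1 + σ bx.2 ji.2)) ≤ ∑ n ∈ R, ∑ x ∈ XS, Y n x ^ (m - 1) := by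
    apply sum_le_sum
    intro n _
    rw [sum_filter, sum_product_right]
    apply sum_le_sum
    intro x _
    simp_rw [e0]
    rw [← sum_filter]
    exact coinc m A (φ n x) (hφ0 n x) (hφ1 n x) p.1 p'.1 hp (σ x p.2) (σ x p'.2)
  refine e2.trans ?_
  have hm0 : (0:ℝ) < m := by exact_mod_cast hm
  have hm1 : (1:ℝ) ≤ m := by exact_mod_cast hm
  calc ∑ n ∈ R, ∑ x ∈ XS, Y n x ^ (m - 1)
      ≤ ∑ n ∈ R, ∑ x ∈ XS, (1 / τ) * (((m - 1 : ℝ) / m) * Y n x ^ m + (1 / m) * τ ^ m) :=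
        sum_le_sum fun n _ => sum_le_sum fun x _ => young m hm (hY0 n x) hτ
    _ = (1 / τ) * (((m - 1 : ℝ) / m) * L + (1 / m) * (R.card * XS.card * τ ^ m)) := by
        rw [e1]
        simp_rw [← mul_sum, sum_add_distrib, ← mul_sum, sum_const, nsmul_eq_mul]
        congr 1
        congr 1
        ring
    _ ≤ (1 / τ) * (((m - 1 : ℝ) / m) * L + (1 / m) * L) := by gcongr
    _ = (1 / τ) * L := by
        field_simp
        ring

section grid

variable {J : Type} [Fintype J] [DecidableEq J]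

lemma card_XS (m : J → ℕ) (A : J → Finset ℕ) : (XS m A).card = ∏ j, (A j).card ^ m j := by
  unfold XS
  simp [Fintype.card_piFinset]

/-- degenerate grids through the coordinate `j₀` -/
theorem deg_grid (m : J → ℕ) (A : J → Finset ℕ) (R : Finset ℕ) (f : ℕ → ℝ) (f0 : ∀ n, 0 ≤ f n)
    (f1 : ∀ n, f n ≤ 1) (j₀ : J) (hm : 1 ≤ m j₀) (i i' : ∀ j, Fin (m j)) (hi : i j₀ ≠ i' j₀) {τ : ℝ}
    (hτ : 0 < τ) (hP : (R.card : ℝ) * (∏ j : {j // j ≠ j₀}, ((A j).card : ℝ) ^ m j) * τ ^ m j₀ ≤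
      Lam R (XS m A) (pts m) (fun _ => f)) :
    ∑ n ∈ R, ∑ x ∈ (XS m A).filter (fun x => pts m x i = pts m x i'), ∏ l, f (n + pts m x l) ≤
      (1 / τ) * Lam R (XS m A) (pts m) (fun _ => f) := by
  classical
  set m' : {j // j ≠ j₀} → ℕ := fun j => m j with hm'
  set A' : {j // j ≠ j₀} → Finset ℕ := fun j => A j with hA'
  set eι := Equiv.piSplitAt j₀ (fun j => Fin (m j)) with heι
  set eX := Equiv.piSplitAt j₀ (fun j => (Fin (m j) → ℕ)) with heX
  have hmem : ∀ x, x ∈ XS m A ↔ eX x ∈ Fintype.piFinset (fun _ : Fin (m j₀) => A j₀) ×ˢ XS m' A' := by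
    intro x
    simp only [mem_product, Fintype.mem_piFinset, mem_XS, heX, Equiv.piSplitAt_apply]
    constructor
    · intro h
      exact ⟨fun i => h j₀ i, fun j i => h j i⟩
    · rintro ⟨h3, h4⟩ j i
      by_cases hj : j = j₀
      · subst hj; exact h3 i
      · exact h4 ⟨j, hj⟩ i
  have hsp : ∀ x l, pts m x l = (eX x).1 (eι l).1 + pts m' (eX x).2 (eι l).2 := fun x l => pts_split m j₀ x l
  have e1 := Lam_congr R _ (fun (bx : (Fin (m j₀) → ℕ) × _) (ji : Fin (m j₀) × _) => bx.1 ji.1 + pts m' bx.2 ji.2)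
    (XS m A) (pts m) eι eX hmem hsp (fun _ => f)
  have hc : ((XS m' A').card : ℝ) = ∏ j : {j // j ≠ j₀}, ((A j).card : ℝ) ^ m j := by
    rw [card_XS]
    push_cast
    rfl
  rw [e1] at hP ⊢
  rw [← hc] at hP
  have h := deg_ext (XS m' A') (pts m') (m j₀) hm (A j₀) R f f0 f1 (eι i) (eι i') hi hτ hP
  refine le_trans (le_of_eq ?_) h
  apply sum_congr rfl
  intro n _
  rw [sum_filter, sum_filter]
  apply sum_equiv eX hmem
  intro x _
  rw [hsp, hsp]
  congr 1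
  rw [← Equiv.prod_comp eι]
  apply prod_congr rfl
  intro l _
  rw [hsp]

/-- the non degenerate grids -/
theorem nondeg (m : J → ℕ) (A : J → Finset ℕ) (R : Finset ℕ) (f : ℕ → ℝ) (f0 : ∀ n, 0 ≤ f n)
    (f1 : ∀ n, f n ≤ 1) (hm : ∀ j, 1 ≤ m j) {τ : ℝ}
    (hτ : 0 < τ) (hP : ∀ j₀, (R.card : ℝ) * (∏ j : {j // j ≠ j₀}, ((A j).card : ℝ) ^ m j) * τ ^ m j₀ ≤
      Lam R (XS m A) (pts m) (fun _ => f)) [DecidablePred fun x => Function.Injective (pts m x)] :
    (1 - (∏ j, m j) * ((∏ j, m j) - 1) / (2 * τ)) * Lam R (XS m A) (pts m) (fun _ => f) ≤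
      ∑ n ∈ R, ∑ x ∈ (XS m A).filter (fun x => Function.Injective (pts m x)), ∏ l, f (n + pts m x l) := by
  classical
  set L := Lam R (XS m A) (pts m) (fun _ => f) with hL
  have hL0 : 0 ≤ L := Lam_nonneg _ _ _ _ fun _ => f0
  set M : ℕ := ∏ j, m j with hM
  set D := ∑ n ∈ R, ∑ x ∈ (XS m A).filter (fun x => ¬ Function.Injective (pts m x)), ∏ l, f (n + pts m x l) with hD
  set E : (∀ j, Fin (m j)) × (∀ j, Fin (m j)) → ℝ := fun q =>
    ∑ n ∈ R, ∑ x ∈ (XS m A).filter (fun x => pts m x q.1 = pts m x q.2), ∏ l, f (n + pts m x l) with hE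
  have h1 : L = (∑ n ∈ R, ∑ x ∈ (XS m A).filter (fun x => Function.Injective (pts m x)), ∏ l, f (n + pts m x l)) + D := by
    rw [hL, hD]
    unfold Lam
    rw [← sum_add_distrib]
    apply sum_congr rfl
    intro n _
    rw [sum_filter_add_sum_filter_not]
  have h2 : 2 * D ≤ ∑ q ∈ (univ : Finset (∀ j, Fin (m j))).offDiag, E q := by
    have hsw : ∑ q ∈ (univ : Finset (∀ j, Fin (m j))).offDiag, E q = ∑ n ∈ R,
        ∑ q ∈ (univ : Finset (∀ j, Fin (m j))).offDiag,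
          ∑ x ∈ (XS m A).filter (fun x => pts m x q.1 = pts m x q.2), ∏ l, f (n + pts m x l) := sum_comm
    rw [hsw, hD, mul_sum]
    apply sum_le_sum
    intro n _
    simp_rw [sum_filter]
    have hsw2 : ∑ q ∈ (univ : Finset (∀ j, Fin (m j))).offDiag, ∑ x ∈ XS m A,
        (if pts m x q.1 = pts m x q.2 then ∏ l, f (n + pts m x l) else 0) = ∑ x ∈ XS m A,
          ∑ q ∈ (univ : Finset (∀ j, Fin (m j))).offDiag,
            (if pts m x q.1 = pts m x q.2 then ∏ l, f (n + pts m x l) else 0) := sum_comm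
    rw [hsw2, mul_sum]
    apply sum_le_sum
    intro x _
    have hp0 : 0 ≤ ∏ l, f (n + pts m x l) := prod_nonneg fun l _ => f0 _
    split_ifs with hx
    · rw [mul_zero]
      apply sum_nonneg
      intro q _
      split_ifs
      · exact hp0
      · exact le_rfl
    · rw [Function.Injective] at hx
      push Not at hx
      obtain ⟨a, b, hab, hne⟩ := hx
      have hsub : ({(a, b), (b, a)} : Finset ((∀ j, Fin (m j)) × (∀ j, Fin (m j)))) ⊆
          (univ : Finset (∀ j, Fin (m j))).offDiag := by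
        intro q hq
        rw [mem_insert, mem_singleton] at hq
        rw [mem_offDiag]
        rcases hq with rfl | rfl
        · exact ⟨mem_univ _, mem_univ _, hne⟩
        · exact ⟨mem_univ _, mem_univ _, hne.symm⟩
      calc 2 * ∏ l, f (n + pts m x l) =
            ∑ q ∈ ({(a, b), (b, a)} : Finset ((∀ j, Fin (m j)) × (∀ j, Fin (m j)))),
              (if pts m x q.1 = pts m x q.2 then ∏ l, f (n + pts m x l) else 0) := by
            rw [sum_pair (by
              intro h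
              exact hne (congrArg Prod.fst h))]
            rw [if_pos hab, if_pos hab.symm]
            ring
        _ ≤ _ := by
            apply sum_le_sum_of_subset_of_nonneg hsub
            intro q _ _
            split_ifs
            · exact hp0
            · exact le_rfl
  have h3 : ∀ q ∈ (univ : Finset (∀ j, Fin (m j))).offDiag, E q ≤ (1 / τ) * L := by
    intro q hq
    rw [mem_offDiag] at hq
    obtain ⟨j₀, hj⟩ := Function.ne_iff.1 hq.2.2
    exact deg_grid m A R f f0 f1 j₀ (hm j₀) q.1 q.2 hj hτ (hP j₀)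
  have h4 : ∑ q ∈ (univ : Finset (∀ j, Fin (m j))).offDiag, E q ≤ (M * M - M : ℝ) * ((1 / τ) * L) := by
    refine (sum_le_card_nsmul _ _ _ h3).trans (le_of_eq ?_)
    rw [nsmul_eq_mul, offDiag_card, card_univ, Fintype.card_pi]
    simp only [Fintype.card_fin]
    rw [← hM, Nat.cast_sub (Nat.le_mul_self M), Nat.cast_mul]
  have h5 : D ≤ (M * M - M : ℝ) / (2 * τ) * L := by
    have h6 := h2.trans h4
    have e : (M * M - M : ℝ) / (2 * τ) * L = ((M * M - M : ℝ) * ((1 / τ) * L)) / 2 := by field_simp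
    rw [e]
    linarith
  have e2 : (1 - (M : ℝ) * (M - 1) / (2 * τ)) * L = L - (M * M - M : ℝ) / (2 * τ) * L := by ring
  rw [e2]
  linarith

end grid

end Pool.Agent.TH891.SP
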